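import Pool.Agent.helper70.GB.SpecN

/-!
# Project gb, module ST: completability over the saturation
-/

set_option autoImplicit false

open Matrix Polynomial

namespace GB

universe u

/-- A unimodular row over `C[P]`, `P` the monoid of a jointly injective family, is equivalent to
its value in degree zero if the localizations are in `C_n`. -/
theorem ST_deg (hTH : TH_stmt.{u}) (hQM : QM_stmt.{u}) (hRAO : RAO_stmt.{u}) (n : ℕ) (hn : 3 ≤ n)
    (C L : Type u) [CommRing C] [AddCommGroup L] (s : ℕ) (a : Fin s → L →+ ℤ)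
    (hC : ∀ (p : Ideal C) [p.IsPrime], CC n (Localization.AtPrime p))
    (ha : ∀ m, (∀ i, a i m = 0) → m = 0) (v : Fin n → AddMonoidAlgebra C (Nmon a)) (hv : Um v) :
    GEq v (fun i => AddMonoidAlgebra.single 0 ((v i).coeff 0)) := by
  set deg : Nmon a →+ ℕ :=
    { toFun := fun m => (∑ i, a i m.1).toNat
      map_zero' := by simp
      map_add' := by
        intro x y
        have hx : 0 ≤ ∑ i, a i x.1 := Finset.sum_nonneg fun i _ => x.2 i
        have hy : 0 ≤ ∑ i, a i y.1 := Finset.sum_nonneg fun i _ => y.2 i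
        rw [← Int.toNat_add hx hy]
        simp only [AddSubmonoid.coe_add, map_add, Finset.sum_add_distrib] } with hdeg
  refine hQM C (Nmon a) deg ?_ (Fin n) v hv ?_
  · intro m hm
    have h1 : (∑ i, a i m.1).toNat = 0 := hm
    have h2 : ∑ i, a i m.1 ≤ 0 := Int.toNat_eq_zero.1 h1
    have h3 : ∀ i ∈ Finset.univ, 0 ≤ a i m.1 := fun i _ => m.2 i
    have h4 : ∑ i, a i m.1 = 0 := le_antisymm h2 (Finset.sum_nonneg h3)
    rw [Finset.sum_eq_zero_iff_of_nonneg h3] at h4
    exact Subtype.ext (ha m.1 fun i => h4 i (Finset.mem_univ _))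
  · intro p hp
    exact hTH hRAO n hn s (Localization.AtPrime p) L a (hC p) ha _ (hv.map _)

theorem ST_curry_coeff {R P T : Type*} [CommRing R] [AddCommMonoid P] [AddCommMonoid T]
    (x : AddMonoidAlgebra R (P × T)) (p : P) (t : T) :
    ((AddMonoidAlgebra.curryRingEquiv x).coeff p).coeff t = x.coeff (p, t) := rfl

theorem ST_iso {R P T N : Type*} [CommRing R] [AddCommMonoid P] [AddCommMonoid T]
    [AddCommMonoid N] (e : P × T ≃+ N) :
    ∃ (f : AddMonoidAlgebra R N →+* AddMonoidAlgebra (AddMonoidAlgebra R T) P)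
      (g : AddMonoidAlgebra (AddMonoidAlgebra R T) P →+* AddMonoidAlgebra R N),
      (∀ x, g (f x) = x) ∧ ∀ x p t, ((f x).coeff p).coeff t = x.coeff (e (p, t)) := by
  set Φ : AddMonoidAlgebra R N ≃+* AddMonoidAlgebra (AddMonoidAlgebra R T) P :=
    ((AddMonoidAlgebra.domCongr R R e.symm).toRingEquiv).trans
      AddMonoidAlgebra.curryRingEquiv with hΦ
  refine ⟨Φ.toRingHom, Φ.symm.toRingHom, fun x => Φ.symm_apply_apply x, fun x p t => ?_⟩
  have h1 : ((Φ x).coeff p).coeff t = (AddMonoidAlgebra.domCongr R R e.symm x).coeff (p, t) :=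
    ST_curry_coeff _ _ _
  have h2 : (AddMonoidAlgebra.domCongr R R e.symm x).coeff (p, t) = x.coeff (e (p, t)) := by
    rw [AddMonoidAlgebra.coeff_domCongr]
    rfl
  exact h1.trans h2

/-- The splitting of the torsion. -/
theorem ST_split {G : Type u} [AddCommGroup G] [AddGroup.FG G] {s : ℕ} (a : Fin s → G →+ ℤ)
    (htor : ∀ g, (∀ i, a i g = 0) → ∃ k : ℕ, 1 ≤ k ∧ k • g = 0) :
    ∃ (K L : AddSubgroup G), Finite K ∧ (∀ g ∈ K, ∀ i, a i g = 0) ∧
      (∀ m ∈ L, (∀ i, a i m = 0) → m = 0) ∧ ∀ g : G, ∃ m ∈ L, ∃ t ∈ K, g = m + t := by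
  set A : G →ₗ[ℤ] (Fin s → ℤ) := LinearMap.pi fun i => (a i).toIntLinearMap with hA
  have hAi : ∀ g i, A g i = a i g := fun g i => rfl
  set K : Submodule ℤ G := LinearMap.ker A with hK
  have hmemK : ∀ g, g ∈ K ↔ ∀ i, a i g = 0 := by
    intro g
    rw [hK, LinearMap.mem_ker]
    constructor
    · intro h i
      rw [← hAi, h]; rfl
    · intro h
      ext i
      rw [hAi, h i]; rfl
  have hfin : Module.Finite ℤ G := Module.Finite.iff_addGroup_fg.2 inferInstance
  have hKfin : Finite K := by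
    refine Module.finite_of_fg_torsion K ?_
    intro x
    obtain ⟨k, hk1, hk⟩ := htor x.1 ((hmemK _).1 x.2)
    refine ⟨⟨(k : ℤ), ?_⟩, ?_⟩
    · rw [mem_nonZeroDivisors_iff_ne_zero]
      omega
    · apply Subtype.ext
      show ((k : ℤ) • x.1 : G) = 0
      rw [natCast_zsmul]
      exact hk
  obtain ⟨σ, hσ⟩ : ∃ σ : LinearMap.range A →ₗ[ℤ] G, A.rangeRestrict ∘ₗ σ = LinearMap.id :=
    Module.projective_lifting_property A.rangeRestrict LinearMap.id A.surjective_rangeRestrict
  have hσ' : ∀ q : LinearMap.range A, A (σ q) = q.1 := by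
    intro q
    have := LinearMap.congr_fun hσ q
    exact congrArg Subtype.val this
  refine ⟨K.toAddSubgroup, (LinearMap.range σ).toAddSubgroup, hKfin, fun g hg => (hmemK g).1 hg,
    ?_, fun g => ?_⟩
  · rintro m ⟨q, rfl⟩ h
    have h1 : σ q ∈ K := (hmemK _).2 h
    have h2 : q = 0 := by
      apply Subtype.ext
      rw [← hσ' q]
      exact h1
    rw [h2, map_zero]
  · have h1 : A (σ (A.rangeRestrict g)) = A g := hσ' _
    have h2 : ∀ i, a i (σ (A.rangeRestrict g)) = a i g := fun i => by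
      rw [← hAi, ← hAi, h1]
    refine ⟨σ (A.rangeRestrict g), ⟨_, rfl⟩, g - σ (A.rangeRestrict g), (hmemK _).2 fun i => ?_, ?_⟩
    · rw [map_sub, h2, sub_self]
    · abel

/-- The isomorphism of monoids. -/
theorem ST_equiv {G : Type u} [AddCommGroup G] {s : ℕ} (a : Fin s → G →+ ℤ) (K L : AddSubgroup G)
    (hK : ∀ g ∈ K, ∀ i, a i g = 0) (hL : ∀ m ∈ L, (∀ i, a i m = 0) → m = 0)
    (hdec : ∀ g : G, ∃ m ∈ L, ∃ t ∈ K, g = m + t) :
    ∃ e : Nmon (fun i => (a i).comp L.subtype) × K ≃+ Nmon a, ∀ q, (e q).1 = q.1.1.1 + q.2.1 := by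
  set ψ : Nmon (fun i => (a i).comp L.subtype) × K →+ Nmon a :=
    { toFun := fun q => ⟨q.1.1.1 + q.2.1, fun i => by
        rw [map_add, hK _ q.2.2 i, add_zero]
        exact q.1.2 i⟩
      map_zero' := by
        apply Subtype.ext
        simp
      map_add' := by
        intro x y
        apply Subtype.ext
        show (x.1 + y.1).1.1 + (x.2 + y.2).1 = (x.1.1.1 + x.2.1) + (y.1.1.1 + y.2.1)
        rw [AddSubmonoid.coe_add, AddSubgroup.coe_add, AddSubgroup.coe_add]
        abel } with hψ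
  have hψv : ∀ q, (ψ q).1 = q.1.1.1 + q.2.1 := fun _ => rfl
  have hψa : ∀ q i, a i (ψ q).1 = a i q.1.1.1 := by
    intro q i
    rw [hψv, map_add, hK _ q.2.2 i, add_zero]
  have hψbij : Function.Bijective ψ := by
    constructor
    · intro x y hxy
      have h1 : ∀ i, a i x.1.1.1 = a i y.1.1.1 := by
        intro i
        rw [← hψa, ← hψa, hxy]
      have h2 : x.1.1.1 - y.1.1.1 = 0 := hL _ (L.sub_mem x.1.1.2 y.1.1.2) fun i => by
        rw [map_sub, h1 i, sub_self]
      have h3 : x.1 = y.1 := Subtype.ext (Subtype.ext (sub_eq_zero.1 h2))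
      have h4 : x.1.1.1 + x.2.1 = y.1.1.1 + y.2.1 := by
        rw [← hψv, ← hψv, hxy]
      rw [h3] at h4
      exact Prod.ext h3 (Subtype.ext (add_left_cancel h4))
    · intro g
      obtain ⟨m, hm, t, ht, hg⟩ := hdec g.1
      have h2 : ∀ i, a i m = a i g.1 := fun i => by
        rw [hg, map_add, hK t ht i, add_zero]
      refine ⟨(⟨⟨m, hm⟩, fun i => ?_⟩, ⟨t, ht⟩), ?_⟩
      · show 0 ≤ a i m
        rw [h2]
        exact g.2 i
      · apply Subtype.ext
        rw [hψv]
        exact hg.symm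
  exact ⟨AddEquiv.ofBijective ψ hψbij, fun q => hψv q⟩

theorem ST_fin {R P T N : Type u} [CommRing R] [AddCommMonoid P] [AddCommMonoid T]
    [AddCommMonoid N] (e : P × T ≃+ N) (n : ℕ) (i₀ : Fin n) (v : Fin n → AddMonoidAlgebra R N)
    (hcoef : ∀ (j : Fin n) (t : T), (v j).coeff (e (0, t)) =
      (Pi.single (M := fun _ => AddMonoidAlgebra R N) i₀ 1 j).coeff (e (0, t)))
    (h : ∀ w : Fin n → AddMonoidAlgebra (AddMonoidAlgebra R T) P, Um w →
      GEq w (fun i => AddMonoidAlgebra.single 0 ((w i).coeff 0))) (hv : Um v) : Comp v := by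
  classical
  obtain ⟨f, g, hgf, hf⟩ := ST_iso (R := R) e
  have h1 := h (fun i => f (v i)) (hv.map f)
  have h3 : ∀ i, (f (v i)).coeff 0 = Pi.single (M := fun _ => AddMonoidAlgebra R T) i₀ 1 i := by
    intro i
    ext t
    rw [hf, hcoef i]
    by_cases hi : i = i₀
    · subst hi
      rw [Pi.single_eq_same, Pi.single_eq_same, AddMonoidAlgebra.one_def,
        AddMonoidAlgebra.one_def, AddMonoidAlgebra.coeff_single, AddMonoidAlgebra.coeff_single,
        Finsupp.single_apply, Finsupp.single_apply]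
      congr 1
      apply propext
      rw [← map_zero e, e.injective.eq_iff]
      simp [Prod.ext_iff]
    · rw [Pi.single_eq_of_ne hi, Pi.single_eq_of_ne hi]
      rfl
  have h2 : (fun i => AddMonoidAlgebra.single (0 : P) ((f (v i)).coeff 0)) =
      Pi.single i₀ (1 : AddMonoidAlgebra (AddMonoidAlgebra R T) P) := by
    funext i
    rw [h3]
    by_cases hi : i = i₀
    · subst hi
      rw [Pi.single_eq_same, Pi.single_eq_same]
      rfl
    · rw [Pi.single_eq_of_ne hi, Pi.single_eq_of_ne hi, AddMonoidAlgebra.single_zero]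
  rw [h2] at h1
  have h5 : Comp (fun i => f (v i)) := (comp_iff_gEq_single i₀).2 h1.symm
  have h6 := h5.map g
  have h7 : (fun i => g (f (v i))) = v := funext fun i => hgf (v i)
  rw [h7] at h6
  exact h6

theorem ST (hTH : TH_stmt.{u}) (hQM : QM_stmt.{u}) (hFT : FT_stmt.{u}) : ST_stmt.{u} := by
  intro hRAO n hn R G _ _ _ s a hR htor i₀ v hv hcoef
  obtain ⟨K, L, hKfin, hK, hL, hdec⟩ := ST_split a htor
  obtain ⟨e, he⟩ := ST_equiv a K L hK hL hdec
  refine ST_fin e n i₀ v (fun j t => hcoef j _ fun i => ?_) (fun w hw => ?_) hv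
  · rw [he]
    show a i (0 + t.1) = 0
    rw [zero_add]
    exact hK _ t.2 i
  · exact ST_deg hTH hQM hRAO n hn (AddMonoidAlgebra R K) L s (fun i => (a i).comp L.subtype)
      (fun p hp => hFT n hn R K hR p) (fun m hm => Subtype.ext (hL m.1 m.2 hm)) w hw

end GB
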